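import Pool.Agent.helper92.ISA.Spec
import Pool.Agent.helper64.PB.SpecA

set_option autoImplicit false

open Filter Topology

namespace Pool.Agent.ISA

open Pool.Agent.PB Pool.Agent.ISO

theorem PUB_mono {n : ℕ} {f : BF n} {s t : ℕ} (h : Size std f s) (hst : s ≤ t) : Size std f t := by
  obtain ⟨l, h1, h2, h3⟩ := h
  exact ⟨l, h1, h2.trans hst, h3⟩

/-- a uniform bound for all functions of less than `n1` variables -/
theorem PUB_fin (hDNF : DNF_stmt) (n1 : ℕ) : ∃ S : ℕ, ∀ n, n < n1 → ∀ f : BF n, Size std f S := by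
  classical
  induction n1 with
  | zero => exact ⟨0, fun n hn => absurd hn (Nat.not_lt_zero n)⟩
  | succ k ih =>
    obtain ⟨S, hS⟩ := ih
    choose s hs using hDNF.1 k
    refine ⟨S + ∑ f : BF k, s f, fun n hn f => ?_⟩
    rcases Nat.lt_or_ge n k with h | h
    · exact PUB_mono (hS n h f) (Nat.le_add_right _ _)
    · have hnk : n = k := by omega
      subst hnk
      refine PUB_mono (hs f) ((Finset.single_le_sum (fun g _ => Nat.zero_le (s g)) (Finset.mem_univ f)).trans ?_)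
      exact Nat.le_add_left _ _

theorem PUB_pow (n c : ℕ) (hn : 2 ≤ n) (hc : c ≤ n) : n ^ c + c ≤ n ^ (c + 2) := by
  have h1 : n ^ c ≤ n ^ (c + 1) := Nat.pow_le_pow_right (by omega) (by omega)
  have h2 : n ^ 1 ≤ n ^ (c + 1) := Nat.pow_le_pow_right (by omega) (by omega)
  have h3 : 2 * n ^ (c + 1) ≤ n ^ (c + 2) := by
    rw [pow_succ n (c + 1), mul_comm]
    exact Nat.mul_le_mul_left _ hn
  rw [pow_one] at h2
  omega

theorem PUB_Mn (δ : ℝ) (a n M : ℕ) (hn : 1 ≤ n) (ha : 1 ≤ (a : ℝ) * δ)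
    (hM : (M : ℝ) ≤ ((n ^ a : ℕ) : ℝ) ^ (1 - δ)) : M * n ≤ n ^ a := by
  have hn' : (1 : ℝ) ≤ n := by exact_mod_cast hn
  have h0 : (0 : ℝ) < n := by linarith
  have h1 : ((n ^ a : ℕ) : ℝ) ^ (1 - δ) * n = (n : ℝ) ^ ((a : ℝ) * (1 - δ) + 1) := by
    rw [Real.rpow_add h0, Real.rpow_one, Real.rpow_mul h0.le, Real.rpow_natCast]
    push_cast
    rfl
  have h2 : (n : ℝ) ^ ((a : ℝ) * (1 - δ) + 1) ≤ (n : ℝ) ^ (a : ℝ) :=
    Real.rpow_le_rpow_of_exponent_le hn' (by nlinarith)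
  rw [Real.rpow_natCast] at h2
  have h3 : (M : ℝ) * n ≤ (n : ℝ) ^ a := by
    calc (M : ℝ) * n ≤ ((n ^ a : ℕ) : ℝ) ^ (1 - δ) * n := mul_le_mul_of_nonneg_right hM h0.le
      _ = _ := h1
      _ ≤ _ := h2
  exact_mod_cast h3

/-- the estimates -/
theorem PUB_est1 (n N w M R c s : ℕ) (hn : 2 ≤ n) (hc : c ≤ n) (hnN : n ≤ N) (hw : w ≤ n ^ c + c) (hs : s = n ^ c + c)
    (hM : M ≤ N) (hR : R ≤ N) : R + M * w ≤ N ^ (c + 4) ∧ n + w + M + R + N + s + 2 ≤ N ^ (c + 5) := by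
  have hN : 2 ≤ N := hn.trans hnN
  have h1 : n ^ c + c ≤ N ^ (c + 2) := (PUB_pow n c hn hc).trans (Nat.pow_le_pow_left hnN _)
  have h2 : 2 * N ^ (c + 2) ≤ N ^ (c + 3) := by
    rw [pow_succ N (c + 2), mul_comm]
    exact Nat.mul_le_mul_left _ hN
  have h3 : 2 * N ^ (c + 3) ≤ N ^ (c + 4) := by
    rw [pow_succ N (c + 3), mul_comm]
    exact Nat.mul_le_mul_left _ hN
  have h4 : 2 * N ^ (c + 4) ≤ N ^ (c + 5) := by
    rw [pow_succ N (c + 4), mul_comm]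
    exact Nat.mul_le_mul_left _ hN
  have h5 : N ≤ N ^ (c + 2) := by
    calc N = N ^ 1 := (pow_one N).symm
      _ ≤ N ^ (c + 2) := Nat.pow_le_pow_right (by omega) (by omega)
  have h6 : M * w ≤ N ^ (c + 3) := by
    calc M * w ≤ N * N ^ (c + 2) := Nat.mul_le_mul hM (hw.trans h1)
      _ = N ^ (c + 3) := by ring
  constructor
  · omega
  · omega

theorem PUB_est2 (N w M R c c2 : ℕ) (hN : 2 ≤ N) (hc2 : c2 ≤ N) (hRM : R + M * w ≤ N ^ (c + 4)) :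
    2 * (N ^ c2 + c2) + N + (R + M * w) + 2 ≤ N ^ (c2 + c + 7) := by
  have h1 : N ^ c2 + c2 ≤ N ^ (c2 + 2) := PUB_pow N c2 hN hc2
  have h2 : N ^ (c2 + 2) ≤ N ^ (c2 + c + 4) := Nat.pow_le_pow_right (by omega) (by omega)
  have h3 : N ^ (c + 4) ≤ N ^ (c2 + c + 4) := Nat.pow_le_pow_right (by omega) (by omega)
  have h4 : N ≤ N ^ (c2 + c + 4) := by
    calc N = N ^ 1 := (pow_one N).symm
      _ ≤ N ^ (c2 + c + 4) := Nat.pow_le_pow_right (by omega) (by omega)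
  have h5 : 8 * N ^ (c2 + c + 4) ≤ N ^ (c2 + c + 7) := by
    have : N ^ (c2 + c + 7) = N ^ 3 * N ^ (c2 + c + 4) := by ring
    rw [this]
    exact Nat.mul_le_mul_right _ (by
      calc 8 = 2 ^ 3 := by norm_num
        _ ≤ N ^ 3 := Nat.pow_le_pow_left hN _)
  omega

theorem PUB_proof (hLVS : ISO.LVS_stmt) (hUNP : ISA.UNP_stmt) (hCOR : ISA.COR_stmt) (hDNF : DNF_stmt) :
    ISA.PUB_stmt := by
  intro δ m A p hδ hAll hev c
  obtain ⟨a0, ha0⟩ := exists_nat_ge (1 / δ)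
  have ha : 1 ≤ ((a0 + 1 : ℕ) : ℝ) * δ := by
    have h1 : 1 / δ * δ = 1 := by field_simp
    have h2 : 1 / δ * δ ≤ (a0 : ℝ) * δ := mul_le_mul_of_nonneg_right ha0 hδ.le
    push_cast
    nlinarith
  obtain ⟨c2, hc2⟩ := hUNP m A p hAll (8 * (c + 5))
  obtain ⟨N0, hN0⟩ := eventually_atTop.1 hev
  obtain ⟨S, hS⟩ := PUB_fin hDNF (N0 + c + c2 + 2)
  refine ⟨S + (a0 + 1) * (c2 + c + 7) * 10, fun n w f hw hf => ?_⟩
  by_cases hn : n < N0 + c + c2 + 2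
  · refine ⟨fun x => decide (wit f x = 1), PUB_mono (hS n hn _) ?_, fun x hx => ?_, fun x hx => ?_⟩
    · omega
    · simp [hx]
    · simp [hx]
  · have hn1 : 2 ≤ n := by omega
    have hnN : n ≤ n ^ (a0 + 1) := by
      calc n = n ^ 1 := (pow_one n).symm
        _ ≤ n ^ (a0 + 1) := Nat.pow_le_pow_right (by omega) (by omega)
    obtain ⟨M, R, K, hM1, hM, hR, hD⟩ := hN0 (n ^ (a0 + 1)) (by omega)
    have h : M * n ≤ n ^ (a0 + 1) := PUB_Mn δ (a0 + 1) n M (by omega) ha hM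
    have hMN : M ≤ n ^ (a0 + 1) := (Nat.le_mul_of_pos_right M (by omega)).trans h
    obtain ⟨e1, e2⟩ := PUB_est1 n (n ^ (a0 + 1)) w M R c (n ^ c + c) hn1 (by omega) hnN hw rfl hMN hR
    have e3 := PUB_est2 (n ^ (a0 + 1)) w M R c c2 (hn1.trans hnN) (by omega) e1
    have hP : Prun (m (n ^ (a0 + 1))) (A (n ^ (a0 + 1))) (p (n ^ (a0 + 1))) ((n ^ (a0 + 1)) ^ c2 + c2)
        (listV f (n ^ (a0 + 1)) h K) := by
      apply hc2
      · refine e1.trans ((Nat.pow_le_pow_right (by omega) ?_).trans (Nat.le_add_right _ _))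
        omega
      · refine PUB_mono (hLVS n w M R (n ^ (a0 + 1)) (n ^ c + c) ((n ^ (a0 + 1)) ^ (c + 5)) f h K hf e2) ?_
        rw [← pow_mul, mul_comm (c + 5) 8]
        exact Nat.le_add_right _ _
    obtain ⟨D, hD1, hD2, hD3⟩ := hCOR n w M R (n ^ (a0 + 1)) (m (n ^ (a0 + 1))) ((n ^ (a0 + 1)) ^ c2 + c2)
      ((n ^ (a0 + 1)) ^ (c2 + c + 7)) (A (n ^ (a0 + 1))) (p (n ^ (a0 + 1))) f h K hM1 hD hP e3
    refine ⟨D, PUB_mono hD1 ?_, hD2, hD3⟩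
    rw [← pow_mul, ← pow_mul]
    refine (Nat.pow_le_pow_right (by omega) ?_).trans (Nat.le_add_right _ _)
    rw [← mul_assoc]
    exact Nat.le_add_left _ _

end Pool.Agent.ISA
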